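import Pool.Agent.Lib.MP_95ac01_nt.H90.All

/-!
# MP_95ac01_nt: the proof of S17823 with general `A`, `B`

The modules BADASY, MLOW, CHEB and MAIN for functions `Ag`, `Bg` in place of `Af`, `Bf`, used with
`Bg H = M * H` to get rational points of height at most `M * H`.
-/

set_option autoImplicit false

namespace Cub.H98

open Finset Filter

noncomputable section

/-- The asymptotic facts about `Ag`, `Bg` (all of ASY except `H / B → 0`). -/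
def AsyG (Ag Bg : ℕ → ℕ) : Prop :=
  Tendsto (fun H : ℕ => (Ag H : ℝ)) atTop atTop ∧
  Tendsto (fun H : ℕ => (Bg H : ℝ)) atTop atTop ∧
  Tendsto (fun H : ℕ => (Ag H : ℝ) ^ 2 / H) atTop (nhds 0) ∧
  Tendsto (fun H : ℕ => (Ag H : ℝ) ^ 3 / (Bg H : ℝ) ^ 2) atTop (nhds 0) ∧
  Tendsto (fun H : ℕ => (Bg H : ℝ) / (Ag H : ℝ) ^ 3) atTop (nhds 0) ∧
  Tendsto (fun H : ℕ => (Bg H : ℝ) ^ 3 / (Ag H : ℝ) ^ 8) atTop (nhds 0) ∧
  ∀ᶠ H : ℕ in atTop, Ag H ≤ Bg H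

/-- BADASY for `Ag`, `Bg`. -/
def BadAsyG (Ag Bg : ℕ → ℕ) : Prop :=
  Tendsto (fun H : ℕ => ((badSet (Ag H) (Bg H)).card : ℝ) / (Bg H : ℝ) ^ 4) atTop (nhds 0)

theorem badasyG {Ag Bg : ℕ → ℕ} (hb : BadStatement) (ha : AsyG Ag Bg) : BadAsyG Ag Bg := by
  obtain ⟨C, hC0, hC⟩ := hb
  obtain ⟨a1, a2, -, -, a6, a7, a8⟩ := ha
  have hlim : Tendsto (fun H : ℕ => C * ((Bg H : ℝ) / (Ag H : ℝ) ^ 3 +
      8 * ((Bg H : ℝ) ^ 3 / (Ag H : ℝ) ^ 8 + (Bg H : ℝ)⁻¹))) atTop (nhds 0) := by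
    have h1 : Tendsto (fun H : ℕ => (Bg H : ℝ)⁻¹) atTop (nhds 0) := tendsto_inv_atTop_zero.comp a2
    have h2 := (a6.add ((a7.add h1).const_mul 8)).const_mul C
    simpa using h2
  refine squeeze_zero' (Eventually.of_forall fun H => by positivity) ?_ hlim
  have hA1 : ∀ᶠ H : ℕ in atTop, (1 : ℝ) ≤ Ag H := a1.eventually_ge_atTop 1
  have hB100 : ∀ᶠ H : ℕ in atTop, (Bg H : ℝ) / (Ag H : ℝ) ^ 3 < 1 / 100 :=
    a6.eventually_lt_const (by norm_num)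
  filter_upwards [hA1, hB100, a8] with H h1 h2 h3
  have hA : 1 ≤ Ag H := by exact_mod_cast h1
  have hApos : (0 : ℝ) < Ag H := by linarith
  have hBpos : (0 : ℝ) < Bg H := by
    have : 0 < Bg H := by omega
    exact_mod_cast this
  have h4 : 100 * Bg H ≤ Ag H ^ 3 := by
    rw [div_lt_iff₀ (by positivity)] at h2
    have : (100 : ℝ) * Bg H ≤ (Ag H : ℝ) ^ 3 := by linarith
    exact_mod_cast this
  have h5 := hC (Ag H) (Bg H) hA h3 h4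
  rw [div_le_iff₀ (by positivity)]
  refine h5.trans ?_
  rw [mul_assoc]
  apply mul_le_mul_of_nonneg_left _ hC0.le
  generalize (Bg H : ℝ) = b at *
  generalize (Ag H : ℝ) = a at *
  have h6 : (b / a ^ 2 + 1) ^ 4 ≤ 8 * ((b / a ^ 2) ^ 4 + 1) := by
    have h7 : 0 ≤ b / a ^ 2 := by positivity
    generalize b / a ^ 2 = t at *
    nlinarith [sq_nonneg (t - 1), sq_nonneg (t ^ 2 - 1), mul_nonneg h7 (sq_nonneg (t - 1)),
      mul_nonneg (sq_nonneg t) (sq_nonneg (t - 1)), sq_nonneg (t ^ 2 - t)]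
  have h8 : (b / a ^ 3 + 8 * (b ^ 3 / a ^ 8 + b⁻¹)) * b ^ 4 =
      b ^ 5 / a ^ 3 + 8 * ((b / a ^ 2) ^ 4 + 1) * b ^ 3 := by
    field_simp
  rw [h8]
  have h9 : (b / a ^ 2 + 1) ^ 4 * b ^ 3 ≤ 8 * ((b / a ^ 2) ^ 4 + 1) * b ^ 3 :=
    mul_le_mul_of_nonneg_right h6 (by positivity)
  linarith

open Pool.Agent.Lib.MP_95ac01_nt.H77 in
/-- MLOW with a constant that does not depend on `Ag`, `Bg`. -/
theorem mlowG (hS : SolLowStatement) (hR : RegionStatement) :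
    ∀ κ : ℝ, 0 < κ → ∀ w₁ e : ℕ, ∃ c₀ : ℝ, 0 < c₀ ∧ ∀ Ag Bg : ℕ → ℕ, AsyG Ag Bg →
      BadAsyG Ag Bg → ∀ δ : ℝ, 0 < δ → δ ≤ 1 →
      ∀ w K : ℕ, w₁ ≤ w → 2 * e + 1 ≤ K → ∀ᶠ H : ℕ in atTop, ∀ c ∈ box H,
        RC κ H c → (∀ p : ℕ, p.Prime → p ≤ w₁ → PC p e c) → SC (qq w₁ w K) c →
        c₀ * Bg H / H ≤ Mf (Ag H) (Bg H) (qq 0 w K) ⌊δ * H * (Bg H : ℝ) ^ 3⌋₊ c := by
  classical
  intro κ hκ w₁ e
  obtain ⟨c', hc', hsol⟩ := hS w₁ e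
  obtain ⟨c₂, hc₂, hreg⟩ := hR κ hκ
  refine ⟨c' * c₂ / 6, by positivity, ?_⟩
  intro Ag Bg hA hB δ hδ hδ1 w K hw hK
  obtain ⟨q, hqdef⟩ : ∃ q : ℕ, q = qq 0 w K := ⟨_, rfl⟩
  have hq : 1 ≤ q := by rw [hqdef]; exact one_le_qq _ _ _
  have hq0 : (0 : ℝ) < q := by exact_mod_cast hq
  obtain ⟨B₀, hB₀⟩ := hreg δ hδ hδ1 q hq
  have hε : 0 < c' * c₂ * δ / (2 * q) := by positivity
  have ev1 := (tendsto_order.1 hB).2 _ hε
  have ev2 := (hA.2.1).eventually_ge_atTop (max (max 1 (B₀ : ℝ)) (q / δ))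
  filter_upwards [ev1, ev2, eventually_ge_atTop 1] with H h1 h2 hH
  intro c hc hRC hPC hSC
  rw [← hqdef]
  obtain ⟨B, hBdef⟩ : ∃ B : ℕ, B = Bg H := ⟨_, rfl⟩
  obtain ⟨A, hAdef⟩ : ∃ A : ℕ, A = Ag H := ⟨_, rfl⟩
  simp only [← hBdef, ← hAdef] at h1 h2 ⊢
  have hH0 : (0 : ℝ) < H := by exact_mod_cast hH
  have hH1 : (1 : ℝ) ≤ H := by exact_mod_cast hH
  have hB1 : (1 : ℝ) ≤ B := le_trans (le_trans (le_max_left _ _) (le_max_left _ _)) h2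
  have hBB : (B₀ : ℝ) ≤ B := le_trans (le_trans (le_max_right _ _) (le_max_left _ _)) h2
  have hBq : (q : ℝ) / δ ≤ B := le_trans (le_max_right _ _) h2
  have hB0 : (0 : ℝ) < B := by linarith
  have hBB' : B₀ ≤ B := by exact_mod_cast hBB
  obtain ⟨ξ, hξ, hξ1, hξ0, j, hj⟩ := hRC
  have e1 : (fun m => (c m : ℝ) / H) = (1 / (H : ℝ)) • cc ℝ c := by
    funext m; simp [cc]; ring
  have hg : ∀ m, |(c m : ℝ) / H| ≤ 1 := by
    intro m
    rw [abs_div, abs_of_pos hH0, div_le_one hH0]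
    have := mem_box.1 hc m
    have h3 : ((|c m| : ℤ) : ℝ) ≤ ((H : ℤ) : ℝ) := by exact_mod_cast this
    push_cast at h3
    exact h3
  have hg0 : ev (fun m => (c m : ℝ) / H) ξ = 0 := by
    rw [e1, ev_smul, hξ0, mul_zero]
  have hgj : κ ≤ |pd (fun m => (c m : ℝ) / H) j ξ| := by
    rw [e1, pd_smul, abs_mul, abs_of_pos (by positivity : 0 < 1 / (H : ℝ)), one_div,
      inv_mul_eq_div, le_div_iff₀ hH0]
    exact hj
  have hcls : ∀ a ∈ solSet q c, c₂ * δ * ((B : ℝ) / q) ^ 4 ≤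
      ((cls B q (fun m => (c m : ℝ) / H) δ a).card : ℝ) := by
    intro a ha
    unfold solSet at ha
    rw [Finset.mem_filter] at ha
    have := hB₀ B hBB' (fun m => (c m : ℝ) / H) ξ a hg hξ hξ1 hg0 ⟨j, hgj⟩ ha.2.1
    unfold cls
    convert this using 2
  have hsum : (sol q c : ℝ) * (c₂ * δ * ((B : ℝ) / q) ^ 4) ≤
      ((∑ a ∈ solSet q c, ((cls B q (fun m => (c m : ℝ) / H) δ a).card) : ℕ) : ℝ) := by
    push_cast
    unfold sol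
    rw [← nsmul_eq_mul]
    exact Finset.card_nsmul_le_sum _ _ _ hcls
  have hsol' : c' * (q : ℝ) ^ 3 ≤ (sol q c : ℝ) := by
    have := hsol w K c hw hK hPC hSC
    rw [← hqdef] at this
    exact this
  have hcount := count_aux (A := A) (B := B) (q := q) (H := H) (c := c) (δ := δ) hH
  have hcount' : ((∑ a ∈ solSet q c, ((cls B q (fun m => (c m : ℝ) / H) δ a).card) : ℕ) : ℝ) ≤
      (((G A B).filter fun x => ev c x ∈ mult q ⌊δ * H * (B : ℝ) ^ 3⌋₊).card : ℝ) +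
        ((badSet A B).card : ℝ) := by exact_mod_cast hcount
  have hbad : ((badSet A B).card : ℝ) ≤ c' * c₂ * δ / (2 * q) * (B : ℝ) ^ 4 := by
    rw [div_lt_iff₀ (by positivity)] at h1
    exact h1.le
  have hN : c' * c₂ * δ / (2 * q) * (B : ℝ) ^ 4 ≤
      (((G A B).filter fun x => ev c x ∈ mult q ⌊δ * H * (B : ℝ) ^ 3⌋₊).card : ℝ) := by
    have h3 : c' * (q : ℝ) ^ 3 * (c₂ * δ * ((B : ℝ) / q) ^ 4) ≤
        (sol q c : ℝ) * (c₂ * δ * ((B : ℝ) / q) ^ 4) :=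
      mul_le_mul_of_nonneg_right hsol' (by positivity)
    have h4 : c' * (q : ℝ) ^ 3 * (c₂ * δ * ((B : ℝ) / q) ^ 4) =
        2 * (c' * c₂ * δ / (2 * q) * (B : ℝ) ^ 4) := by
      field_simp
    linarith
  have hJ : ((mult q ⌊δ * H * (B : ℝ) ^ 3⌋₊).card : ℝ) ≤ 3 * (δ * H * (B : ℝ) ^ 3) / q := by
    have h3 := card_mult_le q ⌊δ * H * (B : ℝ) ^ 3⌋₊ hq
    have h4 : ((mult q ⌊δ * H * (B : ℝ) ^ 3⌋₊).card : ℝ) ≤
        2 * ((⌊δ * H * (B : ℝ) ^ 3⌋₊ / q : ℕ) : ℝ) + 1 := by exact_mod_cast h3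
    have h5 : ((⌊δ * H * (B : ℝ) ^ 3⌋₊ / q : ℕ) : ℝ) ≤ (δ * H * (B : ℝ) ^ 3) / q :=
      le_trans Nat.cast_div_le (div_le_div_of_nonneg_right (Nat.floor_le (by positivity)) hq0.le)
    have h6 : 1 ≤ (δ * H * (B : ℝ) ^ 3) / q := by
      rw [le_div_iff₀ hq0]
      rw [div_le_iff₀ hδ] at hBq
      have h7 : (B : ℝ) ≤ (B : ℝ) ^ 3 := le_self_pow₀ hB1 (by norm_num)
      have h8 : δ * B ≤ δ * H * (B : ℝ) ^ 3 := by
        calc δ * B = δ * 1 * B := by ring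
          _ ≤ δ * H * (B : ℝ) ^ 3 := by
            apply mul_le_mul (mul_le_mul_of_nonneg_left hH1 hδ.le) h7 hB0.le (by positivity)
      linarith
    have h9 : 3 * (δ * H * (B : ℝ) ^ 3) / q = 3 * ((δ * H * (B : ℝ) ^ 3) / q) := by ring
    rw [h9]; linarith
  have hJ0 : (0 : ℝ) < ((mult q ⌊δ * H * (B : ℝ) ^ 3⌋₊).card : ℝ) := by
    exact_mod_cast (mult_nonempty q _).card_pos
  unfold Mf
  rw [le_div_iff₀ hJ0]
  refine le_trans ?_ hN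
  calc c' * c₂ / 6 * B / H * ((mult q ⌊δ * H * (B : ℝ) ^ 3⌋₊).card : ℝ) ≤
        c' * c₂ / 6 * B / H * (3 * (δ * H * (B : ℝ) ^ 3) / q) :=
        mul_le_mul_of_nonneg_left hJ (by positivity)
    _ = c' * c₂ * δ / (2 * q) * (B : ℝ) ^ 4 := by field_simp; ring

/-- CHEB for `Ag`, `Bg`. -/
theorem chebG (hV : VarStatement) (hD : DivQStatement) :
    ∃ C : ℝ, 0 < C ∧ ∀ Ag Bg : ℕ → ℕ, AsyG Ag Bg → ∀ (T : ℕ) (c₀ : ℝ), 1 ≤ T → C ≤ T → 0 < c₀ →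
      (∀ᶠ H : ℕ in atTop, (H : ℝ) / Bg H < 1 / T) →
      ∀ w K : ℕ, 2 * T ≤ w → w ≤ K →
    ∀ᶠ H : ℕ in atTop,
      (((box H).filter fun c => Nf (Ag H) (Bg H) c = 0 ∧ c₀ * Bg H / H ≤
        Mf (Ag H) (Bg H) (qq 0 w K) ⌊(1 / (T : ℝ) ^ 2) * H * (Bg H : ℝ) ^ 3⌋₊ c).card : ℝ) ≤
        C / (T * c₀ ^ 2) * (2 * (H : ℝ) + 1) ^ 20 := by
  obtain ⟨C₁, hC₁⟩ := hV
  refine ⟨5 * C₁ + 1, by positivity, ?_⟩
  intro Ag Bg hA T c₀ hT hCT hc₀ e3 w K hTw hwK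
  obtain ⟨-, hBt, hA2, hA3, -, -, -⟩ := hA
  have hT0 : (0 : ℝ) < T := by exact_mod_cast hT
  have hTinv : (0 : ℝ) < 1 / T := by positivity
  -- eventual conditions
  have e1 : ∀ᶠ H : ℕ in atTop, (Ag H : ℝ) ^ 2 / H < 1 / (C₁ + 1) :=
    hA2.eventually (gt_mem_nhds (by positivity))
  have e2 : ∀ᶠ H : ℕ in atTop, (Ag H : ℝ) ^ 2 / H < 1 / T := hA2.eventually (gt_mem_nhds hTinv)
  have e4 : ∀ᶠ H : ℕ in atTop, (Ag H : ℝ) ^ 3 / (Bg H : ℝ) ^ 2 < 1 / T :=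
    hA3.eventually (gt_mem_nhds hTinv)
  have e5 : ∀ᶠ H : ℕ in atTop, (1 : ℝ) ≤ Bg H := hBt.eventually_ge_atTop 1
  filter_upwards [e1, e2, e3, e4, e5, eventually_ge_atTop 1] with H h1 h2 h3 h4 h5 hH
  have hH0 : (0 : ℝ) < H := by exact_mod_cast hH
  have hB0 : (0 : ℝ) < Bg H := by linarith
  set W : ℕ := ⌊(1 / (T : ℝ) ^ 2) * H * (Bg H : ℝ) ^ 3⌋₊ with hW
  have hWle : (W : ℝ) ≤ (1 / (T : ℝ) ^ 2) * H * (Bg H : ℝ) ^ 3 := Nat.floor_le (by positivity)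
  have hTW : (T : ℝ) * W ≤ H * (Bg H : ℝ) ^ 3 / T := by
    calc (T : ℝ) * W ≤ T * ((1 / (T : ℝ) ^ 2) * H * (Bg H : ℝ) ^ 3) :=
          mul_le_mul_of_nonneg_left hWle hT0.le
      _ = H * (Bg H : ℝ) ^ 3 / T := by field_simp
  have hc1 : C₁ * Ag H ^ 2 ≤ H := by
    have : (C₁ : ℝ) * (Ag H : ℝ) ^ 2 ≤ H := by
      rw [div_lt_iff₀ hH0] at h1
      have h6 : ((C₁ : ℝ) + 1) * (Ag H : ℝ) ^ 2 ≤ H := by
        have h7 : (0 : ℝ) < (C₁ : ℝ) + 1 := by positivity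
        calc ((C₁ : ℝ) + 1) * (Ag H : ℝ) ^ 2 ≤ ((C₁ : ℝ) + 1) * (1 / ((C₁ : ℝ) + 1) * H) :=
              mul_le_mul_of_nonneg_left h1.le h7.le
          _ = H := by field_simp
      have h8 : (0 : ℝ) ≤ (Ag H : ℝ) ^ 2 := by positivity
      linarith
    exact_mod_cast this
  have hc2 : C₁ * T * W ≤ H * Bg H ^ 3 := by
    have hCT' : (C₁ : ℝ) ≤ T := by
      have : (0 : ℝ) ≤ C₁ := Nat.cast_nonneg _
      linarith
    have h9 : (0 : ℝ) ≤ H * (Bg H : ℝ) ^ 3 := by positivity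
    have : (C₁ : ℝ) * T * W ≤ H * (Bg H : ℝ) ^ 3 := by
      calc (C₁ : ℝ) * T * W = C₁ * (T * W) := by ring
        _ ≤ C₁ * (H * (Bg H : ℝ) ^ 3 / T) :=
            mul_le_mul_of_nonneg_left hTW (Nat.cast_nonneg _)
        _ ≤ T * (H * (Bg H : ℝ) ^ 3 / T) :=
            mul_le_mul_of_nonneg_right hCT' (by positivity)
        _ = H * (Bg H : ℝ) ^ 3 := by field_simp
    exact_mod_cast this
  have hdiv : ∀ d, 1 ≤ d → d ≤ 2 * T → d ∣ qq 0 w K := fun d hd1 hd2 =>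
    hD w K d hd1 (hd2.trans hTw) hwK
  have hvar := hC₁ (Ag H) (Bg H) H T (qq 0 w K) W hT hdiv hc1 hc2
  have hsm : (1 / T + T * W / (H * (Bg H : ℝ) ^ 3) + (Ag H : ℝ) ^ 2 / H +
      (Ag H : ℝ) ^ 3 / (Bg H : ℝ) ^ 2 + H / Bg H : ℝ) ≤ 5 / T := by
    have h10 : (T : ℝ) * W / (H * (Bg H : ℝ) ^ 3) ≤ 1 / T := by
      rw [div_le_iff₀ (by positivity)]
      calc (T : ℝ) * W ≤ H * (Bg H : ℝ) ^ 3 / T := hTW
        _ = 1 / T * (H * (Bg H : ℝ) ^ 3) := by ring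
    have h11 : (5 : ℝ) / T = 1 / T + 1 / T + 1 / T + 1 / T + 1 / T := by ring
    rw [h11]
    linarith
  have hvar2 : ∑ c ∈ box H, ((Nf (Ag H) (Bg H) c : ℝ) - Mf (Ag H) (Bg H) (qq 0 w K) W c) ^ 2 ≤
      C₁ * (H : ℝ) ^ 18 * (Bg H : ℝ) ^ 2 * (5 / T) :=
    hvar.trans (mul_le_mul_of_nonneg_left hsm (by positivity))
  set S := (box H).filter fun c => Nf (Ag H) (Bg H) c = 0 ∧ c₀ * Bg H / H ≤
        Mf (Ag H) (Bg H) (qq 0 w K) W c with hS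
  have hlow : (S.card : ℝ) * (c₀ * Bg H / H) ^ 2 ≤
      ∑ c ∈ box H, ((Nf (Ag H) (Bg H) c : ℝ) - Mf (Ag H) (Bg H) (qq 0 w K) W c) ^ 2 := by
    have h12 : (S.card : ℝ) * (c₀ * Bg H / H) ^ 2 ≤
        ∑ c ∈ S, ((Nf (Ag H) (Bg H) c : ℝ) - Mf (Ag H) (Bg H) (qq 0 w K) W c) ^ 2 := by
      rw [← nsmul_eq_mul]
      apply card_nsmul_le_sum
      intro c hc
      obtain ⟨-, hN, hM⟩ := mem_filter.1 hc
      rw [hN, Nat.cast_zero, zero_sub, neg_sq]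
      exact pow_le_pow_left₀ (by positivity) hM 2
    exact h12.trans (sum_le_sum_of_subset_of_nonneg (filter_subset _ _)
      (fun _ _ _ => sq_nonneg _))
  have h13 := hlow.trans hvar2
  have h14 : (S.card : ℝ) ≤ 5 * C₁ * (H : ℝ) ^ 20 / (T * c₀ ^ 2) := by
    rw [le_div_iff₀ (by positivity)]
    have h15 : (S.card : ℝ) * (c₀ * Bg H / H) ^ 2 * (T * (H : ℝ) ^ 2 / (Bg H : ℝ) ^ 2) ≤
        C₁ * (H : ℝ) ^ 18 * (Bg H : ℝ) ^ 2 * (5 / T) * (T * (H : ℝ) ^ 2 / (Bg H : ℝ) ^ 2) :=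
      mul_le_mul_of_nonneg_right h13 (by positivity)
    have h16 : (S.card : ℝ) * (c₀ * Bg H / H) ^ 2 * (T * (H : ℝ) ^ 2 / (Bg H : ℝ) ^ 2) =
        (S.card : ℝ) * (T * c₀ ^ 2) := by field_simp
    have h17 : C₁ * (H : ℝ) ^ 18 * (Bg H : ℝ) ^ 2 * (5 / T) * (T * (H : ℝ) ^ 2 / (Bg H : ℝ) ^ 2) =
        5 * C₁ * (H : ℝ) ^ 20 := by field_simp
    rw [h16, h17] at h15
    exact h15
  refine h14.trans ?_
  have h18 : (H : ℝ) ^ 20 ≤ (2 * (H : ℝ) + 1) ^ 20 :=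
    pow_le_pow_left₀ hH0.le (by linarith) 20
  calc 5 * C₁ * (H : ℝ) ^ 20 / (T * c₀ ^ 2) = 5 * C₁ / (T * c₀ ^ 2) * (H : ℝ) ^ 20 := by ring
    _ ≤ (5 * C₁ + 1) / (T * c₀ ^ 2) * (2 * (H : ℝ) + 1) ^ 20 := by
        apply mul_le_mul _ h18 (by positivity) (by positivity)
        apply div_le_div_of_nonneg_right _ (by positivity)
        linarith

/-- `A = ⌊H^0.4⌋`, `B = M * H`. -/
theorem asyM (M : ℕ) (hM : 1 ≤ M) : AsyG Af (fun H => M * H) := by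
  have hA' := Cub.H91.asy
  have key : ∀ (H : ℕ), 1 ≤ H → (0 : ℝ) < H := fun H hH => by exact_mod_cast hH
  have hM0 : (1 : ℝ) ≤ M := by exact_mod_cast hM
  have hA : ∀ H : ℕ, 1 ≤ H → (H : ℝ) ^ (0.4 : ℝ) / 2 ≤ (Af H : ℝ) ∧ (Af H : ℝ) ≤ (H : ℝ) ^ (0.4 : ℝ) :=
    fun H hH => Cub.H91.fl_bounds 0.4 (by norm_num) hH
  have pw : ∀ (H : ℕ), 1 ≤ H → ∀ (a : ℝ) (k : ℕ), ((H : ℝ) ^ a) ^ k = (H : ℝ) ^ (a * k) := by
    intro H hH a k
    rw [Real.rpow_mul (key H hH).le, Real.rpow_natCast]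
  refine ⟨hA'.1, ?_, hA'.2.2.1, ?_, ?_, ?_, ?_⟩
  · push_cast
    exact (tendsto_natCast_atTop_atTop (R := ℝ)).const_mul_atTop (by linarith)
  · -- A^3 / B^2
    refine Cub.H91.tendsto_small 1 0.8 (by norm_num) _ (fun H => by positivity) ?_
    intro H hH
    have h0 := key H hH
    push_cast
    rw [div_le_iff₀ (by positivity)]
    have hp := Real.rpow_pos_of_pos h0 (-0.8)
    calc (Af H : ℝ) ^ 3 ≤ ((H : ℝ) ^ (0.4 : ℝ)) ^ 3 :=
          pow_le_pow_left₀ (Nat.cast_nonneg _) (hA H hH).2 3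
      _ = (H : ℝ) ^ (1.2 : ℝ) := by rw [pw H hH]; norm_num
      _ = (H : ℝ) ^ (-0.8 : ℝ) * (H : ℝ) ^ (2 : ℝ) := by
          rw [← Real.rpow_add h0]; norm_num
      _ = 1 * (H : ℝ) ^ (-0.8 : ℝ) * (1 * (H : ℝ)) ^ 2 := by
          rw [one_mul, one_mul, ← Real.rpow_natCast]; norm_num
      _ ≤ 1 * (H : ℝ) ^ (-0.8 : ℝ) * (M * (H : ℝ)) ^ 2 := by gcongr
  · -- B / A^3
    refine Cub.H91.tendsto_small (8 * M) 0.2 (by norm_num) _ (fun H => by positivity) ?_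
    intro H hH
    have h0 := key H hH
    have ha := (hA H hH).1
    have hp : 0 < (H : ℝ) ^ (0.4 : ℝ) := Real.rpow_pos_of_pos h0 _
    have ha0 : (0 : ℝ) < Af H := lt_of_lt_of_le (by positivity) ha
    have hp2 := Real.rpow_pos_of_pos h0 (-0.2)
    push_cast
    rw [div_le_iff₀ (by positivity)]
    calc (M : ℝ) * H = M * (H : ℝ) ^ (1 : ℝ) := by rw [Real.rpow_one]
      _ = M * ((H : ℝ) ^ (-0.2 : ℝ) * (H : ℝ) ^ (1.2 : ℝ)) := by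
          rw [← Real.rpow_add h0]; norm_num
      _ = M * ((H : ℝ) ^ (-0.2 : ℝ) * ((H : ℝ) ^ (0.4 : ℝ)) ^ 3) := by rw [pw H hH]; norm_num
      _ = 8 * M * (H : ℝ) ^ (-0.2 : ℝ) * ((H : ℝ) ^ (0.4 : ℝ) / 2) ^ 3 := by ring
      _ ≤ 8 * M * (H : ℝ) ^ (-0.2 : ℝ) * (Af H : ℝ) ^ 3 := by gcongr
  · -- B^3 / A^8
    refine Cub.H91.tendsto_small (256 * M ^ 3) 0.2 (by norm_num) _ (fun H => by positivity) ?_
    intro H hH
    have h0 := key H hH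
    have ha := (hA H hH).1
    have hp : 0 < (H : ℝ) ^ (0.4 : ℝ) := Real.rpow_pos_of_pos h0 _
    have ha0 : (0 : ℝ) < Af H := lt_of_lt_of_le (by positivity) ha
    have hp2 := Real.rpow_pos_of_pos h0 (-0.2)
    push_cast
    rw [div_le_iff₀ (by positivity)]
    calc ((M : ℝ) * H) ^ 3 = M ^ 3 * (H : ℝ) ^ (3 : ℝ) := by
          rw [mul_pow, ← Real.rpow_natCast (H : ℝ) 3]; norm_num
      _ = M ^ 3 * ((H : ℝ) ^ (-0.2 : ℝ) * (H : ℝ) ^ (3.2 : ℝ)) := by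
          rw [← Real.rpow_add h0]; norm_num
      _ = M ^ 3 * ((H : ℝ) ^ (-0.2 : ℝ) * ((H : ℝ) ^ (0.4 : ℝ)) ^ 8) := by rw [pw H hH]; norm_num
      _ = 256 * M ^ 3 * (H : ℝ) ^ (-0.2 : ℝ) * ((H : ℝ) ^ (0.4 : ℝ) / 2) ^ 8 := by ring
      _ ≤ 256 * M ^ 3 * (H : ℝ) ^ (-0.2 : ℝ) * (Af H : ℝ) ^ 8 := by gcongr
  · filter_upwards [eventually_ge_atTop 1] with H hH
    have h0 := key H hH
    have h1 : (1 : ℝ) ≤ H := by exact_mod_cast hH
    have h2 : (Af H : ℝ) ≤ H := by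
      refine (hA H hH).2.trans ?_
      calc (H : ℝ) ^ (0.4 : ℝ) ≤ (H : ℝ) ^ (1 : ℝ) :=
            Real.rpow_le_rpow_of_exponent_le h1 (by norm_num)
        _ = H := Real.rpow_one _
    have h3 : Af H ≤ H := by exact_mod_cast h2
    calc Af H ≤ 1 * H := by omega
      _ ≤ M * H := Nat.mul_le_mul_right _ hM

open Classical in
/-- Forms in the box, locally soluble everywhere, without an integer zero `x`,
`0 < |x| ≤ X`. -/
def excSet (X : ℕ) (H : ℕ) : Finset (Mon → ℤ) :=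
  (box H).filter fun c => LocZ c ∧ ∀ x : Fin 4 → ℤ, x ≠ 0 → (∀ i, |x i| ≤ (X : ℤ)) → ev c x ≠ 0

open H90 in
/-- For all but a proportion `4 * η` of the forms local solubility everywhere implies a zero of
height at most `M * H`. -/
theorem mainG : ∀ η : ℝ, 0 < η → ∃ M : ℕ, 1 ≤ M ∧ ∀ᶠ H : ℕ in atTop,
    ((excSet (M * H) H).card : ℝ) ≤ 4 * η * (2 * (H : ℝ) + 1) ^ 20 := by
  classical
  obtain ⟨CT, hCT, hcheb⟩ := chebG varA Cub.H91.divq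
  have hml := mlowG solLowA regionA
  have hre := realExcA
  have hpe := padExcA
  have hbig := bigPA
  obtain ⟨CR, hCR, hre⟩ := hre
  obtain ⟨CB, hbig⟩ := hbig
  -- the main estimate
  intro η hη
  have key : ∃ M : ℕ, 1 ≤ M ∧ ∀ᶠ H : ℕ in atTop,
      ((excSet (M * H) H).card : ℝ) ≤ 4 * η * (2 * (H : ℝ) + 1) ^ 20 := by
    -- w₁
    obtain ⟨w₁, hw₁⟩ : ∃ w₁ : ℕ, 1 ≤ w₁ ∧ (CB : ℝ) ≤ η * w₁ := by
      obtain ⟨n, hn⟩ := exists_nat_ge ((CB : ℝ) / η)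
      refine ⟨n + 1, by omega, ?_⟩
      rw [div_le_iff₀ hη] at hn
      push_cast
      nlinarith
    -- κ
    obtain ⟨κ, hκ, hκ1, hκC⟩ : ∃ κ : ℝ, 0 < κ ∧ κ ≤ 1 ∧ CR * κ ≤ η := by
      refine ⟨min 1 (η / CR), lt_min one_pos (by positivity), min_le_left _ _, ?_⟩
      calc CR * min 1 (η / CR) ≤ CR * (η / CR) := by
            gcongr; exact min_le_right _ _
        _ = η := by field_simp
    obtain ⟨e, he⟩ := hpe η hη w₁
    obtain ⟨c₀, hc₀, hml⟩ := hml κ hκ w₁ e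
    -- T
    obtain ⟨T, hT1, hTC, hT⟩ : ∃ T : ℕ, 1 ≤ T ∧ CT ≤ T ∧ CT / (T * c₀ ^ 2) ≤ η := by
      obtain ⟨n, hn⟩ := exists_nat_ge (CT / (η * c₀ ^ 2) + CT)
      have h0 : 0 ≤ CT / (η * c₀ ^ 2) := by positivity
      refine ⟨n + 1, by omega, ?_, ?_⟩
      · push_cast; linarith
      · push_cast
        have h1 : CT / (η * c₀ ^ 2) ≤ (n : ℝ) + 1 := by linarith
        rw [div_le_iff₀ (by positivity)] at h1
        rw [div_le_iff₀ (by positivity)]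
        nlinarith
    have hTpos : (0 : ℝ) < T := by exact_mod_cast hT1
    set w : ℕ := max w₁ (2 * T) with hw
    set K : ℕ := max (2 * e + 1) w with hK
    have hδ : (0 : ℝ) < 1 / (T : ℝ) ^ 2 := by positivity
    have hδ1 : 1 / (T : ℝ) ^ 2 ≤ 1 := by
      rw [div_le_one (by positivity)]
      have : (1 : ℝ) ≤ T := by exact_mod_cast hT1
      nlinarith
    obtain ⟨Bg, hBg⟩ : ∃ Bg : ℕ → ℕ, Bg = fun H => (T + 1) * H := ⟨_, rfl⟩
    obtain ⟨Ag, hAg⟩ : ∃ Ag : ℕ → ℕ, Ag = Af := ⟨_, rfl⟩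
    have hasy : AsyG Ag Bg := by rw [hAg, hBg]; exact asyM (T + 1) (by omega)
    have hHB : ∀ᶠ H : ℕ in atTop, (H : ℝ) / Bg H < 1 / T := by
      filter_upwards [eventually_ge_atTop 1] with H hH
      have hH0 : (0 : ℝ) < H := by exact_mod_cast hH
      rw [hBg]
      push_cast
      rw [div_lt_div_iff₀ (by positivity) hTpos]
      nlinarith
    have hml' := hml Ag Bg hasy (badasyG badA hasy) (1 / (T : ℝ) ^ 2) hδ hδ1 w K
      (le_max_left _ _) (le_max_left _ _)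
    have hcheb' := hcheb Ag Bg hasy T c₀ hT1 hTC hc₀ hHB w K (le_max_right _ _) (le_max_right _ _)
    have hre' := hre κ hκ hκ1
    refine ⟨T + 1, by omega, ?_⟩
    filter_upwards [hml', hcheb', hre', he, eventually_ge_atTop (qq w₁ w K)] with H h1 h2 h3 h4 h5
    have h6 := hbig w₁ (qq w₁ w K) H hw₁.1 (qq_pos _ _ _) (fun p hp hd => prime_dvd_qq hp hd) h5
    have hw₁pos : (0 : ℝ) < w₁ := by exact_mod_cast hw₁.1
    have h7 : (((box H).filter fun c => ¬ SC (qq w₁ w K) c).card : ℝ) ≤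
        η * (2 * (H : ℝ) + 1) ^ 20 := by
      have h6' : (((box H).filter fun c => ¬ SC (qq w₁ w K) c).card : ℝ) * w₁ ≤
          CB * (2 * (H : ℝ) + 1) ^ 20 := by
        have := (Nat.cast_le (α := ℝ)).2 h6
        push_cast at this
        exact this
      have h8 : (CB : ℝ) * (2 * (H : ℝ) + 1) ^ 20 ≤ η * w₁ * (2 * (H : ℝ) + 1) ^ 20 :=
        mul_le_mul_of_nonneg_right hw₁.2 (pow_nonneg (by linarith [Nat.cast_nonneg (α := ℝ) H]) 20)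
      have h9 : (((box H).filter fun c => ¬ SC (qq w₁ w K) c).card : ℝ) * w₁ ≤
          (η * (2 * (H : ℝ) + 1) ^ 20) * w₁ := by
        calc _ ≤ _ := h6'
          _ ≤ _ := h8
          _ = _ := by ring
      exact le_of_mul_le_mul_right h9 hw₁pos
    have hsub : excSet ((T + 1) * H) H ⊆
        ((box H).filter fun c => ¬ RC κ H c) ∪
        (((box H).filter fun c => LocZ c ∧ ¬ ∀ p : ℕ, p.Prime → p ≤ w₁ → PC p e c) ∪
        (((box H).filter fun c => ¬ SC (qq w₁ w K) c) ∪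
        ((box H).filter fun c => Nf (Ag H) (Bg H) c = 0 ∧ c₀ * Bg H / H ≤
          Mf (Ag H) (Bg H) (qq 0 w K) ⌊(1 / (T : ℝ) ^ 2) * H * (Bg H : ℝ) ^ 3⌋₊ c))) := by
      intro f hf
      unfold excSet at hf
      rw [Finset.mem_filter] at hf
      obtain ⟨hfb, hfl, hf2⟩ := hf
      have hN : Nf (Ag H) (Bg H) f = 0 := by
        by_contra h
        unfold Nf at h
        obtain ⟨x, hx⟩ := Finset.card_pos.1 (Nat.pos_of_ne_zero h)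
        rw [Finset.mem_filter, mem_G, mem_shell] at hx
        refine hf2 x (prim_ne_zero hx.1.1.2.1) ?_ hx.2
        have := hx.1.1.1
        rw [hBg] at this
        exact this
      simp only [Finset.mem_union, Finset.mem_filter]
      by_cases hA : RC κ H f
      · by_cases hB : ∀ p : ℕ, p.Prime → p ≤ w₁ → PC p e f
        · by_cases hC : SC (qq w₁ w K) f
          · right; right; right
            exact ⟨hfb, hN, h1 f hfb hA hB hC⟩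
          · right; right; left
            exact ⟨hfb, hC⟩
        · right; left
          exact ⟨hfb, hfl, hB⟩
      · left; exact ⟨hfb, hA⟩
    exact count_four hsub (h3.trans (mul_le_mul_of_nonneg_right hκC (pow_nonneg (by linarith [Nat.cast_nonneg (α := ℝ) H]) 20)))
      h4 h7 (h2.trans (mul_le_mul_of_nonneg_right hT (pow_nonneg (by linarith [Nat.cast_nonneg (α := ℝ) H]) 20)))
  exact key

end

end Cub.H98
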